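import Pool.Agent.helper7.AL.Spec

/-!
# Final form of the alternative (MP_bf63dc_nt)
-/

set_option autoImplicit false

namespace Pool.Agent.AL

open Finset Pool.Agent.helper85.FC

lemma FIN_card (P Q : ℤ → Prop) (h1 : DecidablePred P) (h2 : DecidablePred Q) (h : ∀ c, P c ↔ Q c)
    (I : Finset ℤ) : #(@Finset.filter ℤ P h1 I) = #(@Finset.filter ℤ Q h2 I) := by
  refine congrArg Finset.card (Finset.ext fun c => ?_)
  rw [@Finset.mem_filter _ P h1, @Finset.mem_filter _ Q h2, h c]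

open Classical in
lemma FIN_ncard (P : ℤ → Prop) (u : ℤ) (N : ℕ) :
    {c : ℤ | u < c ∧ c ≤ u + N ∧ P c}.ncard = #{c ∈ Ioc u (u + N) | P c} := by
  rw [← Set.ncard_coe_finset]
  congr 1
  ext c
  simp [and_assoc]

/-- The alternative with explicit definitions. -/
def Alternative : Prop :=
    -- (A) two clusters, and all even `c` with a power saving
    (∃ K : ℕ, 1 ≤ K ∧
      (∀ X Y : Finset ℤ, #X = K → #Y = K → (∀ x ∈ X, ∀ y ∈ Y, x ≠ y ∧ Even (y - x)) →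
        ∃ x ∈ X, ∃ y ∈ Y, TrueCase 1 1 (y - x)) ∧
      ∀ (u : ℤ) (N : ℕ),
        ({c : ℤ | u < c ∧ c ≤ u + N ∧ c ≠ 0 ∧ Even c ∧ ¬ TrueCase 1 1 c}.ncard : ℝ) ≤
          (N : ℝ) ^ (1 - 1 / (K : ℝ))) ∨
    -- (B) every pair of coprime coefficients
    ((∃ C : ℕ, ∀ a b : ℕ, 0 < a → 0 < b → Nat.Coprime a b → ∀ u : ℤ,
        ∃ c : ℤ, u < c ∧ c ≤ u + C * (a + b) ∧ TrueCase a b c) ∧
      ∀ a b : ℕ, 0 < a → 0 < b → Nat.Coprime a b → ∀ ε : ℝ, 0 < ε → ∃ M₀ : ℕ, ∀ M : ℕ, M₀ ≤ M →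
        ∀ u : ℤ, (1 / 12 - ε) * (∏ l ∈ (a * b).primeFactors with 5 ≤ l, (1 - 2 / (l : ℝ))) * M ≤
          {c : ℤ | u < c ∧ c ≤ u + M ∧ TrueCase a b c}.ncard)

theorem FIN (h : ALT_stmt) : Alternative := by
  classical
  rcases h with ⟨K, hK, h1, h2⟩ | ⟨⟨C, hC⟩, h4⟩
  · refine Or.inl ⟨K, hK, h1, fun u N => ?_⟩
    have h3 := h2 u N
    rw [FIN_ncard (fun c => c ≠ 0 ∧ Even c ∧ ¬ TrueCase 1 1 c) u N]
    rw [one_mul] at h3
    refine le_trans (le_of_eq ?_) h3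
    exact_mod_cast FIN_card _ _ _ _ (fun c => Iff.rfl) _
  · refine Or.inr ⟨⟨C, fun a b ha hb hab u => ?_⟩, fun a b ha hb hab ε hε => ?_⟩
    · obtain ⟨c, hc, hT⟩ := hC a b ha hb hab u
      rw [Finset.mem_Ioc] at hc
      exact ⟨c, hc.1, hc.2, hT⟩
    · obtain ⟨M₀, hM₀⟩ := h4 a b ha hb hab ε hε
      refine ⟨M₀, fun M hM u => ?_⟩
      rw [FIN_ncard (fun c => TrueCase a b c) u M]
      exact hM₀ M hM u

end Pool.Agent.AL
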