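import Pool.Agent.helper7.AL.SpecM
import Pool.Agent.helper4.AL.Fin

/-!
# Final form of the alternative for every modulus (MP_bf63dc_nt)
-/

set_option autoImplicit false

namespace Pool.Agent.AL

open Finset Pool.Agent.helper85.FC

/-- The alternative for every modulus `m`. -/
def AlternativeM : Prop :=
    ∀ m : ℕ, 1 ≤ m →
      -- (A) two clusters, and all multiples `c` of `2 m` with a power saving
      (∃ K : ℕ, 1 ≤ K ∧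
        (∀ X Y : Finset ℤ, #X = K → #Y = K → (∀ x ∈ X, ∀ y ∈ Y, x ≠ y ∧ ((2 * m : ℕ) : ℤ) ∣ y - x) →
          ∃ x ∈ X, ∃ y ∈ Y, TrueCase 1 1 (y - x)) ∧
        ∀ (u : ℤ) (N : ℕ),
          ({c : ℤ | u < c ∧ c ≤ u + N ∧ c ≠ 0 ∧ ((2 * m : ℕ) : ℤ) ∣ c ∧ ¬ TrueCase 1 1 c}.ncard : ℝ) ≤
            (N : ℝ) ^ (1 - 1 / (K : ℝ))) ∨
      -- (B) every pair of coprime coefficients: gaps, and a positive proportion
      ((∃ C : ℕ, ∀ (a b : ℕ) (c' : ℤ), Poss a b c' → ∀ u : ℤ,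
          ∃ c : ℤ, u < c ∧ c ≤ u + C * (a + b) ∧ (m : ℤ) ∣ c - c' ∧ TrueCase a b c) ∧
        ∀ (a b : ℕ) (c' : ℤ), Poss a b c' → ∀ ε : ℝ, 0 < ε → ∃ M₀ : ℕ, ∀ M : ℕ, M₀ ≤ M → ∀ u : ℤ,
          (1 / (m : ℝ) * (if 2 ∣ m then 1 else 1 / 2) * (if 3 ∣ m then 1 / 4 else 1 / 6) - ε) *
              (∏ l ∈ (a * b).primeFactors with 5 ≤ l ∧ ¬ l ∣ m, (1 - 2 / (l : ℝ))) * M ≤
            {c : ℤ | u < c ∧ c ≤ u + M ∧ (m : ℤ) ∣ c - c' ∧ TrueCase a b c}.ncard)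

theorem FINM (h : ALTM_stmt) : AlternativeM := by
  classical
  intro m hm
  rcases h m hm with ⟨K, hK, h1, h2⟩ | ⟨⟨C, hC⟩, h4⟩
  · refine Or.inl ⟨K, hK, h1, fun u N => ?_⟩
    have h3 := h2 u N
    rw [FIN_ncard (fun c => c ≠ 0 ∧ ((2 * m : ℕ) : ℤ) ∣ c ∧ ¬ TrueCase 1 1 c) u N]
    rw [one_mul] at h3
    refine le_trans (le_of_eq ?_) h3
    exact_mod_cast FIN_card _ _ _ _ (fun c => Iff.rfl) _
  · refine Or.inr ⟨⟨C, fun a b c' hp u => ?_⟩, fun a b c' hp ε hε => ?_⟩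
    · obtain ⟨c, hc, hd, hT⟩ := hC a b c' hp u
      rw [Finset.mem_Ioc] at hc
      exact ⟨c, hc.1, hc.2, hd, hT⟩
    · obtain ⟨M₀, hM₀⟩ := h4 a b c' hp ε hε
      refine ⟨M₀, fun M hM u => ?_⟩
      rw [FIN_ncard (fun c => (m : ℤ) ∣ c - c' ∧ TrueCase a b c) u M]
      refine (hM₀ M hM u).trans (le_of_eq ?_)
      exact_mod_cast FIN_card _ _ _ _ (fun c => Iff.rfl) _

end Pool.Agent.AL
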