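import Pool.Agent.helper4.AL.Top
import Pool.Agent.helper4.AL.FinM
import Pool.Agent.helper8.AL.MQU
import Pool.Agent.helper16.AL.MHS
import Pool.Agent.helper20.AL.MUN
import Pool.Agent.helper23.AL.MCN
import Pool.Agent.helper34.AL.MPI
import Pool.Agent.helper48.AL.MSP
import Pool.Agent.helper52.AL.MJA
import Pool.Agent.helper53.AL.MLC
import Pool.Agent.helper87.AL.MGP

/-!
# The alternative for every modulus (MP_bf63dc_nt): assembly
-/

set_option autoImplicit false

namespace Pool.Agent.AL

theorem altm : ALTM_stmt :=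
  ALTM_of (MSP KSB) MUN MPI (BLC Pool.Agent.helper11.MK.cm4)
    (MGP MHS SOL (MJA OMG) (MLC LNV) gp1)
    (MQU MPI (GPC gp1 (LCB LNV) (HEX SOL) (BOX DPP) AVG) SUM M3
      (MCN Pool.Agent.helper11.TX.CR))

/-- The alternative for every modulus. -/
theorem alternativeM : AlternativeM := FINM altm

end Pool.Agent.AL
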