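import Pool.Agent.helper7.AL.SpecG
import Pool.Agent.helper4.AL.Fin

/-!
# Final form of the alternative for every ratio (MP_bf63dc_nt)
-/

set_option autoImplicit false

namespace Pool.Agent.AL

open Finset Pool.Agent.helper85.FC

/-- The alternative for every ratio `a₀ : b₀`. -/
def AlternativeR : Prop :=
    ∃ K : ℕ, 1 ≤ K ∧ ∀ a₀ b₀ : ℕ, 0 < a₀ → 0 < b₀ → Nat.Coprime a₀ b₀ →
      -- (C) the pair `(a₀, b₀)`: two clusters, and all `c` with a power saving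
      ((∀ X Y : Finset ℤ, #X = K → #Y = K → (∀ x ∈ X, ∀ y ∈ Y, Poss a₀ b₀ (a₀ * x - b₀ * y)) →
          ∃ x ∈ X, ∃ y ∈ Y, TrueCase a₀ b₀ (a₀ * x - b₀ * y)) ∧
        ∃ C : ℝ, ∀ (u : ℤ) (N : ℕ),
          ({c : ℤ | u < c ∧ c ≤ u + N ∧ Poss a₀ b₀ c ∧ ¬ TrueCase a₀ b₀ c}.ncard : ℝ) ≤
            C * (N : ℝ) ^ (1 - 1 / (K : ℝ))) ∨
      -- (D) every geometric progression `(a : b)`, `(a a₀ : b b₀)`, `(a a₀² : b b₀²)`
      (∃ C : ℕ, ∀ a b : ℕ, 0 < a → 0 < b → Nat.Coprime a b → ∀ X : ℕ, C * (a + b) ≤ X →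
        ∃ j ≤ 2, X ≤ C * (a + b) * {c : ℤ | |c| ≤ X ∧
          TrueCase (lo (a * a₀ ^ j) (b * b₀ ^ j)) (lo (b * b₀ ^ j) (a * a₀ ^ j)) c}.ncard)

theorem FING (h : ALTG_stmt) : AlternativeR := by
  classical
  obtain ⟨K, hK, h0⟩ := h
  refine ⟨K, hK, fun a₀ b₀ ha₀ hb₀ hab₀ => ?_⟩
  rcases h0 a₀ b₀ ha₀ hb₀ hab₀ with ⟨h1, C, h2⟩ | h3
  · refine Or.inl ⟨h1, C, fun u N => ?_⟩
    have h3 := h2 u N
    rw [FIN_ncard (fun c => Poss a₀ b₀ c ∧ ¬ TrueCase a₀ b₀ c) u N]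
    refine le_trans (le_of_eq ?_) h3
    exact_mod_cast FIN_card _ _ _ _ (fun c => Iff.rfl) _
  · exact Or.inr h3

end Pool.Agent.AL
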