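import Pool.Agent.helper10.QT.SpecY
import Pool.Agent.helper4.AL.Fin

/-!
# Final form of the alternative for every ratio and of the zero-one law (MP_bf63dc_nt)
-/

set_option autoImplicit false

namespace Pool.Agent.AL

open Finset Pool.Agent.helper85.FC

/-- The pair `(a, b)` is solved up to a power saving: among any two sets of `K` integers there is a true
case, and every interval of `N` integers contains at most `C N ^ (1 - 1 / K)` integers `c` which satisfy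
the conditions of Q1 and are not true. -/
def Solved (K a b : ℕ) : Prop :=
  (∀ X Y : Finset ℤ, #X = K → #Y = K → (∀ x ∈ X, ∀ y ∈ Y, Poss a b (a * x - b * y)) →
      ∃ x ∈ X, ∃ y ∈ Y, TrueCase a b (a * x - b * y)) ∧
    ∃ C : ℝ, ∀ (u : ℤ) (N : ℕ),
      ({c : ℤ | u < c ∧ c ≤ u + N ∧ Poss a b c ∧ ¬ TrueCase a b c}.ncard : ℝ) ≤
        C * (N : ℝ) ^ (1 - 1 / (K : ℝ))

/-- The positive rational `r = a / b` is ample: for arbitrarily large `X` at least `δ X` of the `c` with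
`|c| ≤ X` are true for `(a, b)`. -/
def Ample (r : ℚ) : Prop :=
  ∃ δ : ℝ, 0 < δ ∧ ∀ X₀ : ℕ, ∃ X : ℕ, X₀ ≤ X ∧
    δ * X ≤ ({c : ℤ | |c| ≤ X ∧ TrueCase r.num.natAbs r.den c}.ncard : ℝ)

/-- Every ratio is solved, or every geometric progression of three ratios contains an ample one,
uniformly. -/
def Local (K : ℕ) : Prop := ∀ a₀ b₀ : ℕ, 0 < a₀ → 0 < b₀ → Nat.Coprime a₀ b₀ →
  Solved K a₀ b₀ ∨
  (∃ C : ℕ, ∀ a b : ℕ, 0 < a → 0 < b → Nat.Coprime a b → ∀ X : ℕ, C * (a + b) ≤ X →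
    ∃ j ≤ 2, X ≤ C * (a + b) * {c : ℤ | |c| ≤ X ∧
      TrueCase (lo (a * a₀ ^ j) (b * b₀ ^ j)) (lo (b * b₀ ^ j) (a * a₀ ^ j)) c}.ncard)

/-- The zero-one law. -/
def ZeroOne (K : ℕ) : Prop :=
  (∀ x ∈ Units.posSubgroup ℚ, ∃ y : Fin 3 → ℚˣ,
    (∀ i, y i ∈ Units.posSubgroup ℚ ∧ Ample (y i)) ∧ x = ∏ i, y i) ∨
  ∃ H : Subgroup ℚˣ, H ≤ Units.posSubgroup ℚ ∧
    (H.relIndex (Units.posSubgroup ℚ) = 2 ∨ H.relIndex (Units.posSubgroup ℚ) = 3) ∧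
    ∀ x ∈ Units.posSubgroup ℚ,
      (x ∈ H → Solved K (x : ℚ).num.natAbs (x : ℚ).den) ∧ (Ample x ↔ x ∈ H)

lemma FINZ_ample (r : ℚ) : Pool.Agent.AT.AmpR r ↔ Ample r := by
  classical
  have h : ∀ X : ℕ, (#{c ∈ Icc (-(X : ℤ)) X | TrueCase r.num.natAbs r.den c} : ℕ) =
      {c : ℤ | |c| ≤ X ∧ TrueCase r.num.natAbs r.den c}.ncard := by
    intro X
    rw [← Set.ncard_coe_finset]
    congr 1
    ext c
    simp [abs_le]
  unfold Pool.Agent.AT.AmpR Ample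
  refine exists_congr fun δ => and_congr_right fun _ => forall_congr' fun X₀ =>
    exists_congr fun X => and_congr_right fun _ => ?_
  rw [← h X]

lemma FINZ_solved {K a b : ℕ} (h : TCG a b K ∧ ∃ C : ℝ, SparseG a b K C) : Solved K a b := by
  classical
  obtain ⟨h1, C, h2⟩ := h
  refine ⟨h1, C, fun u N => ?_⟩
  have h3 := h2 u N
  rw [FIN_ncard (fun c => Poss a b c ∧ ¬ TrueCase a b c) u N]
  refine le_trans (le_of_eq ?_) h3
  exact_mod_cast FIN_card _ _ _ _ (fun c => Iff.rfl) _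

theorem FINZ_local (K : ℕ) (h : ∀ a₀ b₀ : ℕ, 0 < a₀ → 0 < b₀ → Nat.Coprime a₀ b₀ →
    (TCG a₀ b₀ K ∧ ∃ C : ℝ, SparseG a₀ b₀ K C) ∨ Geo a₀ b₀) : Local K := by
  intro a₀ b₀ ha₀ hb₀ hab₀
  rcases h a₀ b₀ ha₀ hb₀ hab₀ with h1 | h3
  · exact Or.inl (FINZ_solved h1)
  · exact Or.inr h3

theorem FINZ_zero (K : ℕ) (h : Pool.Agent.AT.AMPK K) : ZeroOne K := by
  rcases h with ⟨H, hH, hi, h1⟩ | h2
  · refine Or.inr ⟨H, hH, hi, fun x hx => ⟨fun hxH => ?_, ?_⟩⟩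
    · exact FINZ_solved ((h1 x hx).1 hxH)
    · rw [← FINZ_ample]
      exact (h1 x hx).2
  · refine Or.inl fun x hx => ?_
    obtain ⟨y, hy, hxy⟩ := h2 x hx
    exact ⟨y, fun i => ⟨(hy i).1, (FINZ_ample _).1 (hy i).2⟩, hxy⟩

end Pool.Agent.AL
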