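import Pool.Agent.helper7.AL.Spec

/-!
# Row QUA of project AL (MP_bf63dc_nt): positive density for every pair, assembly
-/

set_option autoImplicit false

namespace Pool.Agent.AL

open Finset Pool.Agent.helper85.FC Pool.Agent.helper11.MK

lemma QUA_fac {l : ℕ} (hl : 5 ≤ l) : 0 < 1 - 2 / (l : ℝ) ∧ 1 - 2 / (l : ℝ) ≤ 1 := by
  have h5 : (5 : ℝ) ≤ l := by exact_mod_cast hl
  have h0 : (0 : ℝ) < l := by linarith
  constructor
  · have : 2 / (l : ℝ) < 1 := by rw [div_lt_one h0]; linarith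
    linarith
  · have : 0 ≤ 2 / (l : ℝ) := by positivity
    linarith

open Classical in
lemma QUA_dc (G S : ℤ → Prop) (s : ℕ × ℕ → ℤ) (m : ℕ) (T : Finset (ℕ × ℕ)) (I : Finset ℤ)
    (h : ∀ c : ℤ, #{t ∈ T | S (c - s t)} ≤ m) :
    ∑ t ∈ T, (#{c ∈ I | G c ∧ S (c - s t)} : ℝ) ≤ m * #{c ∈ I | G c} := by
  have h1 : ∀ t ∈ T, (#{c ∈ I | G c ∧ S (c - s t)} : ℝ) =
      ∑ c ∈ I with G c, (if S (c - s t) then (1 : ℝ) else 0) := by
    intro t _
    rw [← Finset.filter_filter, Finset.card_filter]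
    push_cast
    rfl
  rw [Finset.sum_congr rfl h1, Finset.sum_comm]
  have h2 : ∀ c ∈ I.filter G, ∑ t ∈ T, (if S (c - s t) then (1 : ℝ) else 0) ≤ m := by
    intro c _
    have h3 : ∑ t ∈ T, (if S (c - s t) then (1 : ℝ) else 0) = (#{t ∈ T | S (c - s t)} : ℝ) := by
      rw [Finset.card_filter]
      push_cast
      rfl
    rw [h3]
    exact_mod_cast h c
  calc ∑ c ∈ I.filter G, ∑ t ∈ T, (if S (c - s t) then (1 : ℝ) else 0)
      ≤ ∑ c ∈ I.filter G, (m : ℝ) := Finset.sum_le_sum h2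
    _ = m * #{c ∈ I | G c} := by rw [Finset.sum_const, nsmul_eq_mul, mul_comm]

open Classical in
theorem QUA (hPIG : PIG_stmt) (hGPC : GPC_stmt) (hSUM : SUM_stmt) (hM3 : M3_stmt) (hCNT : CNT_stmt) :
    QUA_stmt := by
  intro k hk hB hno a b ha hb hab ε hε
  set Q : ℝ := ∏ l ∈ (a * b).primeFactors with 5 ≤ l, (1 - 2 / (l : ℝ)) with hQ
  have hQ0 : 0 < Q := Finset.prod_pos fun l hl => (QUA_fac (Finset.mem_filter.1 hl).2).1
  by_cases hε1 : 1 / 12 ≤ ε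
  · refine ⟨0, fun M _ u => ?_⟩
    have h1 : (1 / 12 - ε) * Q * M ≤ 0 := by
      have : (1 / 12 - ε) * Q ≤ 0 := mul_nonpos_of_nonpos_of_nonneg (by linarith) hQ0.le
      exact mul_nonpos_of_nonpos_of_nonneg this (Nat.cast_nonneg M)
    exact h1.trans (Nat.cast_nonneg _)
  push Not at hε1
  obtain ⟨L₀, hL₀⟩ := hGPC k hk hB ε hε
  set L : ℕ := max L₀ 1 with hL
  have hL1 : 1 ≤ L := le_max_right _ _
  set W : ℕ := 6 * a * b * (4 * k).factorial with hW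
  have hW0 : 0 < W := by
    have := Nat.factorial_pos (4 * k)
    positivity
  have h2W : 2 ∣ W := by
    refine ⟨3 * a * b * (4 * k).factorial, ?_⟩
    rw [hW]; ring
  have hLW : 1 ≤ L * W := Nat.mul_pos hL1 hW0
  obtain ⟨X, Y, u₀, hX, hY, hu, hXW, hYW, hbad⟩ := hPIG L W hL1 hW0 h2W (hno (L * W) hLW)
  obtain ⟨m, hm2, hmL, hm⟩ := hM3 a b u₀ hab
  obtain ⟨C₁, hC₁⟩ := hCNT a b u₀ ha hb hab hu
  have hdisj : Disjoint X Y := by
    rw [Finset.disjoint_left]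
    intro x hx hy
    exact (hbad x hx x hy).1 (sub_self x)
  have hper : ∀ c t : ℤ, S0 a b u₀ (c + W * t) ↔ S0 a b u₀ c := by
    intro c t
    refine forall_congr' fun l => forall_congr' fun hl => forall_congr' fun hd => ?_
    have hlW : (l : ℤ) ∣ (W : ℤ) * t := by
      refine Dvd.dvd.mul_right ?_ t
      rw [hW]
      exact_mod_cast Dvd.dvd.mul_right hd _
    refine exists_congr fun h => exists_congr fun h' => and_congr_left fun _ => ?_
    have e : c + W * t - (a * h - b * h') = (c - (a * h - b * h')) + W * t := by ring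
    rw [e]
    exact (dvd_add_left hlW)
  obtain ⟨C₂, hC₂⟩ := hSUM W a b L X Y u₀ (S0 a b u₀) (TrueCase a b) hL1 hX hY hdisj hper hXW hYW
  have key := hC₂ (1 - ε) (by linarith) (by linarith) (fun c₀ hc₀ hz =>
    hL₀ L a b X Y u₀ (le_max_left _ _) ha hb hab hX hY hXW hYW hbad c₀ hc₀ hz)
  have hmS : ∀ c : ℤ, #{t ∈ (range 2) ×ˢ (range 2) |
      S0 a b u₀ (c - ((t.1 : ℤ) * (a * u₀) - t.2 * (b * u₀)))} ≤ m := by
    intro c
    refine (Finset.card_le_card ?_).trans (hm c)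
    intro t ht
    rw [Finset.mem_filter] at ht ⊢
    refine ⟨ht.1, ht.2 3 Nat.prime_three ?_⟩
    exact ⟨2 * a * b, by ring⟩
  set C : ℝ := |C₁| + |C₂| with hC
  have hC0 : 0 ≤ C := by positivity
  refine ⟨⌈C / (11 / 12 * ε * Q)⌉₊, fun M hM u => ?_⟩
  have hM' : C ≤ 11 / 12 * ε * Q * M := by
    have h1 : C / (11 / 12 * ε * Q) ≤ M := (Nat.le_ceil _).trans (by exact_mod_cast hM)
    rw [div_le_iff₀ (by positivity)] at h1
    linarith
  have h1 := key u M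
  have h2 := QUA_dc (TrueCase a b) (S0 a b u₀) (fun t => (t.1 : ℤ) * (a * u₀) - t.2 * (b * u₀)) m
    ((range 2) ×ˢ (range 2)) (Ioc u (u + M)) hmS
  have h3 := hC₁ u M
  set g : ℝ := (#{c ∈ Ioc u (u + M) | TrueCase a b c} : ℝ) with hg
  set sN : ℝ := (#{c ∈ Ioc u (u + M) | S0 a b u₀ c} : ℝ) with hsN
  set r : ℝ := (#{r ∈ range 3 | Loc a b u₀ 3 (r : ℕ)} : ℝ) with hr
  have hmr : (m : ℝ) ≤ 2 * r := by rw [hr]; exact_mod_cast hmL
  have hm1 : (1 : ℝ) ≤ m := by exact_mod_cast (by omega : 1 ≤ m)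
  have h4 : (1 - ε) * sN - C₂ ≤ m * g := h1.trans h2
  have hQM : 0 ≤ Q * M := by positivity
  have h5 : (m : ℝ) / 12 * (Q * M) - C₁ ≤ sN := by
    have h6 : (m : ℝ) / 12 * (Q * M) ≤ r / 6 * (Q * M) := mul_le_mul_of_nonneg_right (by linarith) hQM
    have h7 : r / 6 * Q * M - C₁ ≤ sN := h3
    linarith [mul_assoc (r / 6) Q (M : ℝ)]
  have h8 : (1 - ε) * ((m : ℝ) / 12 * (Q * M) - C₁) ≤ (1 - ε) * sN :=
    mul_le_mul_of_nonneg_left h5 (by linarith)
  have h9 : (1 - ε) * C₁ ≤ |C₁| := by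
    calc (1 - ε) * C₁ ≤ (1 - ε) * |C₁| := mul_le_mul_of_nonneg_left (le_abs_self _) (by linarith)
      _ ≤ 1 * |C₁| := mul_le_mul_of_nonneg_right (by linarith) (abs_nonneg _)
      _ = |C₁| := one_mul _
  have h10 : m * ((1 - ε) / 12 * (Q * M)) - C ≤ m * g := by
    have h11 := le_abs_self C₂
    have h12 : (m : ℝ) * ((1 - ε) / 12 * (Q * M)) = (1 - ε) * ((m : ℝ) / 12 * (Q * M)) := by ring
    have h13 : (1 - ε) * ((m : ℝ) / 12 * (Q * M) - C₁) =
      (1 - ε) * ((m : ℝ) / 12 * (Q * M)) - (1 - ε) * C₁ := by ring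
    rw [hC]
    linarith
  have h14 : (1 - ε) / 12 * (Q * M) - C ≤ g := by
    have h15 : (m : ℝ) * ((1 - ε) / 12 * (Q * M) - C) ≤ m * g := by
      have : (m : ℝ) * ((1 - ε) / 12 * (Q * M) - C) ≤ m * ((1 - ε) / 12 * (Q * M)) - C := by
        nlinarith
      linarith
    exact le_of_mul_le_mul_left h15 (by linarith)
  have h16 : (1 / 12 - ε) * Q * M = (1 - ε) / 12 * (Q * M) - 11 / 12 * ε * Q * M := by ring
  rw [h16]
  linarith

end Pool.Agent.AL
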