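import Pool.Agent.helper11.MK.Main
import Pool.Agent.helper23.TX.CR
import Pool.Agent.helper4.AL.QUA
import Pool.Agent.helper4.AL.Fin
import Pool.Agent.helper5.AL.AVG
import Pool.Agent.helper5.AL.LCA
import Pool.Agent.helper5.AL.OMG
import Pool.Agent.helper5.AL.PIG
import Pool.Agent.helper5.AL.SOL
import Pool.Agent.helper5.AL.UNI
import Pool.Agent.helper8.AL.HEX
import Pool.Agent.helper10.AL.GP1
import Pool.Agent.helper16.AL.LNV
import Pool.Agent.helper23.AL.GPC
import Pool.Agent.helper23.AL.SUM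
import Pool.Agent.helper31.AL.CNT
import Pool.Agent.helper43.AL.KSB
import Pool.Agent.helper45.AL.LCB
import Pool.Agent.helper45.AL.TRC
import Pool.Agent.helper57.AL.DPP
import Pool.Agent.helper57.AL.BOX
import Pool.Agent.helper75.AL.M3
import Pool.Agent.helper79.AL.BLC
import Pool.Agent.helper87.AL.SPA
import Pool.Agent.helper89.AL.HST
import Pool.Agent.helper96.AL.GP2
import Pool.Agent.helper96.AL.JAC

/-!
# The alternative (MP_bf63dc_nt): assembly
-/

set_option autoImplicit false

namespace Pool.Agent.AL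

theorem gp1 : GP1_stmt := GP1 TRC

theorem alt : ALT_stmt :=
  ALT_of (SPA KSB) UNI PIG (BLC Pool.Agent.helper11.MK.cm4)
    (GP2 HST SOL (JAC OMG) (LCA LNV) gp1)
    (QUA PIG (GPC gp1 (LCB LNV) (HEX SOL) (BOX DPP) AVG) SUM M3 (CNT Pool.Agent.helper11.TX.CR))

/-- At least one of (A), (B) holds. -/
theorem alternative : Alternative := FIN alt

end Pool.Agent.AL
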