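import Pool.Agent.helper4.AL.Top
import Pool.Agent.helper4.AL.FinG
import Pool.Agent.helper11.AL.GAR
import Pool.Agent.helper20.AL.GFT
import Pool.Agent.helper20.AL.GWN
import Pool.Agent.helper34.AL.GSP
import Pool.Agent.helper52.AL.GGP
import Pool.Agent.helper64.AL.GHS
import Pool.Agent.helper80.AL.GCT
import Pool.Agent.helper80.AL.GPI
import Pool.Agent.helper87.AL.GLC

/-!
# The alternative for every ratio (MP_bf63dc_nt): assembly
-/

set_option autoImplicit false

namespace Pool.Agent.AL

theorem altg : ALTG_stmt :=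
  ALTG_of (BLC Pool.Agent.helper11.MK.cm4) (GSP KSB) GPI
    (GWN GHS (JAC OMG) (GFT SOL) (GLC LNV) (GGP TRC GAR)) GCT

/-- The alternative for every ratio. -/
theorem alternativeR : AlternativeR := FING altg

end Pool.Agent.AL
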