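import Pool.Agent.helper4.AL.FinZ
import Pool.Agent.helper4.AL.TopG
import Pool.Agent.helper7.AL.AllD
import Pool.Agent.helper88.AT.AMF
import Pool.Agent.helper42.AT.GRA
import Pool.Agent.helper92.AT.AGE
import Pool.Agent.helper52.AT.AP1
import Pool.Agent.helper69.AT.AP4

/-!
# The zero-one law for the ratios (MP_bf63dc_nt): assembly
-/

set_option autoImplicit false

namespace Pool.Agent.AL

open Finset Pool.Agent.helper85.FC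

theorem TOPZ_amp1 : Pool.Agent.AT.AmpR 1 := by
  classical
  refine Pool.Agent.AT.AP1.1 fun m hm ε hε => ?_
  obtain ⟨M₀, h⟩ := Pool.Agent.AT.THG_all Pool.Agent.AT.QPc_all m hm ε hε
  refine ⟨M₀, fun M hM u => (h M hM u).trans (le_of_eq ?_)⟩
  rw [← Set.ncard_coe_finset]
  congr 2
  ext c
  simp [and_assoc]

theorem TOPZ_ampk (K : ℕ) (h : ∀ a₀ b₀ : ℕ, 0 < a₀ → 0 < b₀ → Nat.Coprime a₀ b₀ →
    (TCG a₀ b₀ K ∧ ∃ C : ℝ, SparseG a₀ b₀ K C) ∨ Geo a₀ b₀) : Pool.Agent.AT.AMPK K :=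
  Pool.Agent.AT.AMF Pool.Agent.AT.GRA Pool.Agent.AT.AGE K TOPZ_amp1 Pool.Agent.AT.AP1.2
    (Pool.Agent.AT.AP4 (Pool.Agent.AT.CLQ_all 4 (by norm_num))) h

open Classical in
/-- In the subgroup case: tuples of forms with the slopes in one coset of `H`. -/
theorem TOPZ_clus (H : Subgroup ℚˣ) (ω : ℕ) (hH : H ≤ Units.posSubgroup ℚ) (hω : ω = 2 ∨ ω = 3)
    (hi : H.relIndex (Units.posSubgroup ℚ) = ω) (hA : ∀ x ∈ Units.posSubgroup ℚ, Ample (x : ℚ) → x ∈ H)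
    (k : ℕ) (hk : 1 ≤ k) : ∃ C δ : ℝ, 0 < C ∧ 0 < δ ∧ ∀ s : Fin k → ℕ, (∀ i, 0 < s i) →
      (∀ i j, ∃ x ∈ H, (x : ℚ) = (s i : ℚ) / s j) → ∀ (F : Fin k → Finset ℤ) (L : ℕ), 1 ≤ L → (∀ i, L ≤ #(F i)) →
      (#{h ∈ Fintype.piFinset F | Pool.Agent.AT.Adm (Pool.Agent.LD.fo s h) ∧
        ¬ Pool.Agent.LD.ManyT (Pool.Agent.LD.th ω) (Pool.Agent.LD.fo s h)} : ℝ) ≤
        C * (∏ i, (#(F i) : ℝ)) * (L : ℝ) ^ (-δ) := by
  obtain ⟨K, hK, h1⟩ := Pool.Agent.LD.LZO Pool.Agent.LD.LDD_all H ω hH hω hi (fun x a b ha hb hx hδ => by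
    have hpos : (0 : ℚ) < (x : ℚ) := by
      rw [hx]
      positivity
    refine hA x ((Units.mem_posSubgroup x).2 hpos) ?_
    obtain ⟨δ, hδ0, h2⟩ := hδ
    obtain ⟨hn, hd⟩ := Pool.Agent.AT.AP4_numden a b ha hb (x : ℚ) hx
    refine ⟨δ, hδ0, fun X₀ => ?_⟩
    obtain ⟨X, hX, h3⟩ := h2 X₀
    refine ⟨X, hX, h3.trans (le_of_eq ?_)⟩
    rw [hn, hd]
    congr 2
    ext c
    simp [abs_le]) k hk
  obtain ⟨C, δ, hC, hδ, -, h2⟩ := Pool.Agent.LD.LQT_all k K hk hK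
  exact ⟨C, δ, hC, hδ, fun s hs hsH F L hL hF => h2 _ s (h1 s hs hsH) F L hL hF⟩

theorem TOPZ : ∃ K : ℕ, 1 ≤ K ∧ Local K ∧ ZeroOne K := by
  obtain ⟨K, hK, h⟩ := altg
  exact ⟨K, hK, FINZ_local K h, FINZ_zero K (TOPZ_ampk K h)⟩

end Pool.Agent.AL
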